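import Pool.Agent.Run7.h286.PL.Stm
import Pool.Agent.Run7.h286.TG.REC
import Pool.Agent.Run7.h811.TG.GLG

/-!
# Project PRL (helper286), piece BIL (helper212): the quadratic and the bilinear reciprocity law
-/

set_option autoImplicit false
set_option linter.all false

open Polynomial IsDedekindDomain WithZero
open scoped Classical

namespace Run7.h212.PL

open Pool.Agent.N874.PP (Ov Ev Sq1 exists_below)
open Pool.Agent.N352.PJ (IsGen Crd Fam GoodR Ht dsc res Mt S_INT S_PRY)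
open Run7.h784.TG
open Run7.h286.PL
open Run7.h286.TG (recg Dat ev_mul ev_inv ev_cancel ev_one not_ev)
open Pool.Agent.N622.PJ (mapO val_ne val_exp eq_of_ov sq1_mul_sq sq1_iff sq1_mul sq1_of_mul)

/-- counting modulo two -/
theorem par {α : Type*} (Ω : Set α) (hΩ : Ω.Finite) (p q r : α → Prop)
    (h : ∀ x ∈ Ω, (r x ↔ ¬ (p x ↔ q x))) :
    Even ({x | x ∈ Ω ∧ p x}.ncard + {x | x ∈ Ω ∧ q x}.ncard + {x | x ∈ Ω ∧ r x}.ncard) := by
  obtain ⟨W, rfl⟩ := hΩ.exists_finset_coe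
  have e : ∀ s : α → Prop, {x | x ∈ (W : Set α) ∧ s x}.ncard = (W.filter s).card := by
    intro s
    rw [← Set.ncard_coe_finset]
    congr 1
    ext x
    simp
  rw [e, e, e]
  have hr : W.filter r = W.filter fun x => ¬ (p x ↔ q x) :=
    Finset.filter_congr fun x hx => h x hx
  have h1 : (W.filter p).card = (W.filter fun x => p x ∧ q x).card +
      (W.filter fun x => p x ∧ ¬ q x).card := by
    rw [← Finset.card_union_of_disjoint, ← Finset.filter_or]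
    · congr 1
      refine Finset.filter_congr fun x _ => ?_
      by_cases hq : q x <;> simp [hq]
    · exact Finset.disjoint_filter.2 fun x _ h1 h2 => h2.2 h1.2
  have h2 : (W.filter q).card = (W.filter fun x => p x ∧ q x).card +
      (W.filter fun x => ¬ p x ∧ q x).card := by
    rw [← Finset.card_union_of_disjoint, ← Finset.filter_or]
    · congr 1
      refine Finset.filter_congr fun x _ => ?_
      by_cases hp : p x <;> simp [hp]
    · exact Finset.disjoint_filter.2 fun x _ h1 h2 => h2.1 h1.1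
  have h3 : (W.filter fun x => ¬ (p x ↔ q x)).card = (W.filter fun x => p x ∧ ¬ q x).card +
      (W.filter fun x => ¬ p x ∧ q x).card := by
    rw [← Finset.card_union_of_disjoint, ← Finset.filter_or]
    · congr 1
      refine Finset.filter_congr fun x _ => ?_
      by_cases hp : p x <;> by_cases hq : q x <;> simp [hp, hq]
    · exact Finset.disjoint_filter.2 fun x _ h1 h2 => h2.1 h1.1
  rw [hr, h1, h2, h3]
  exact ⟨(W.filter fun x => p x ∧ q x).card + (W.filter fun x => p x ∧ ¬ q x).card +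
    (W.filter fun x => ¬ p x ∧ q x).card, by ring⟩


/-- the quadratic law -/
theorem quad (k K L O : Type) [Field k] [Finite k] [Field K] [Algebra k[X] K]
    [IsFractionRing k[X] K]
    [Field L] [Algebra K L] [Algebra k[X] L] [IsScalarTower k[X] K L] [CommRing O]
    [IsDedekindDomain O] [Algebra O L] [IsFractionRing O L] [Algebra k[X] O]
    [IsScalarTower k[X] O L] [IsIntegralClosure O k[X] L] (g N : ℕ) (r : k[X]) (f : k[X][X]) (θ : L)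
    (hF : Fm g N r f) (hG : IsGen g K f θ)
    (S₁ : Finset k[X]) (u : k[X] → k[X]) (hT : GoodT g f S₁ u) (x : L) (a b : k[X] → k[X][X])
    (hx : RelC O K S₁ x) (hab : ∀ P ∈ S₁, Adp O f θ P x (a P) (b P)) :
    Even (∑ P ∈ S₁, {𝔓 : HeightOneSpectrum O | Ov P 𝔓 ∧ ¬ Ev 𝔓 x ∧
      ¬ Sq1 𝔓 (x * cls θ (P * u P) 𝔓 (a P) (b P))}.ncard) := by
  rcases S₁.eq_empty_or_nonempty with hne | hne
  · rw [hne, Finset.sum_empty]
    exact Even.zero
  have hI : S_INT := Pool.Agent.N769.PJ.int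
  have hL : P_LOCQ := Run7.h646.TG.T_LOCQ
  have hsq : Squarefree (dsc g f) := hF.fam.sq
  haveI : Algebra.IsIntegral k[X] O := IsIntegralClosure.isIntegral_algebra k[X] L
  have hinj : Function.Injective (algebraMap k[X] L) := by
    rw [IsScalarTower.algebraMap_eq k[X] K L]
    exact (algebraMap K L).injective.comp (IsFractionRing.injective k[X] K)
  have hfo : ∀ P ∈ S₁, {𝔓 : HeightOneSpectrum O | Ov P 𝔓}.Finite := fun P hP =>
    Pool.Agent.N765.PP.fin_over (K := K) (L := L) (hT.irr P hP).ne_zero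
  have hfin : {𝔓 : HeightOneSpectrum O | ∃ P ∈ S₁, Ov P 𝔓 ∧
      𝔓.valuation L (eval₂ (algebraMap k[X] L) θ (a P)) < 1}.Finite := by
    refine Set.Finite.subset (s := ⋃ P ∈ S₁, {𝔓 : HeightOneSpectrum O | Ov P 𝔓})
      (Set.Finite.biUnion S₁.finite_toSet hfo) ?_
    rintro 𝔓 ⟨P, hP, hov, -⟩
    exact Set.mem_biUnion hP hov
  obtain ⟨T, hTT⟩ : ∃ T : Finset (HeightOneSpectrum O), ∀ 𝔓, 𝔓 ∈ T ↔ ∃ P ∈ S₁, Ov P 𝔓 ∧
      𝔓.valuation L (eval₂ (algebraMap k[X] L) θ (a P)) < 1 := ⟨hfin.toFinset, fun 𝔓 => by simp⟩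
  have D : Dat g f θ S₁ a b T :=
    { inj := hinj
      mon := hT.mon
      irr := hT.irr
      nd := hT.nd
      am := fun P hP => (hab P hP).am
      bm := fun P hP => (hab P hP).bm
      cong := fun P hP => (hab P hP).cong
      vP := by
        intro P hP 𝔓 hov
        have hmax : (Ideal.span {P} : Ideal k[X]).IsMaximal :=
          PrincipalIdealRing.isMaximal_of_irreducible (hT.irr P hP)
        letI i1 : Field (k[X] ⧸ Ideal.span {P}) := Ideal.Quotient.field _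
        obtain ⟨t, ht⟩ := Pool.Agent.N765.PJ.theta_ex O hG
        have hπ : ∀ c : k[X], Ideal.Quotient.mk (Ideal.span {P}) c = 0 ↔ P ∣ c := fun c => by
          rw [Ideal.Quotient.eq_zero_iff_mem, Ideal.mem_span_singleton]
        exact Run7.h646.TG.unram (K := K) (t := t) (π := Ideal.Quotient.mk (Ideal.span {P}))
          Ideal.Quotient.mk_surjective hπ (hT.irr P hP) hI hG hsq ht
          (Run7.h646.TG.red_sqf hπ hG.mon hG.deg hF.g1 (hT.nd P hP)) hov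
      dich := by
        intro P hP 𝔓 hov
        exact (hL k K L O g N r f θ hF hG P (hT.mon P hP) (hT.irr P hP) (hT.nd P hP)).2.2.1
          (a P) (b P) (hab P hP).am (hab P hP).bm (hab P hP).cong 𝔓 hov
      mem := hTT }
  have hmem : ∀ P ∈ S₁, ∀ 𝔓 : HeightOneSpectrum O, Ov P 𝔓 → (𝔓 ∈ T ↔ ¬ Ev 𝔓 x) := by
    intro P hP 𝔓 hov
    rw [hTT]
    constructor
    · rintro ⟨P', hP', hov', hlt⟩
      have e1 : P' = P := eq_of_ov (hT.mon P' hP') (hT.irr P' hP') (hT.mon P hP) (hT.irr P hP)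
        hov' hov
      rw [e1] at hlt
      exact ((hab P hP).odd 𝔓 hov).1 hlt
    · intro h
      exact ⟨P, hP, hov, ((hab P hP).odd 𝔓 hov).2 h⟩
  have hodd : ∀ 𝔓 ∈ T, ¬ Ev 𝔓 x := by
    intro 𝔓 h𝔓
    obtain ⟨P, hP, hov, -⟩ := (hTT 𝔓).1 h𝔓
    exact (hmem P hP 𝔓 hov).1 h𝔓
  have hev : ∀ 𝔓 : HeightOneSpectrum O, 𝔓 ∉ T → Ev 𝔓 x := by
    intro 𝔓 h𝔓
    obtain ⟨R, hRm, hRi, hR⟩ := exists_below (k := k) 𝔓
    by_cases hRS : R ∈ S₁
    · by_contra h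
      exact h𝔓 ((hmem R hRS 𝔓 hR).2 h)
    · exact hx.ev R hRm hRi hRS 𝔓 hR
  have key := recg hI Pool.Agent.N434.PJ.pry Run7.h811.TG.glg' g k K L O f θ N r S₁ a b T hG hF
    hne D (fun P hP => (hab P hP).ae) x hx.ne hodd hev u hT.nu
  have hset : ∀ P ∈ S₁, {𝔓 : HeightOneSpectrum O | Ov P 𝔓 ∧ ¬ Ev 𝔓 x ∧
      ¬ Sq1 𝔓 (x * cls θ (P * u P) 𝔓 (a P) (b P))}.ncard =
      ((T.filter fun 𝔓 => ∀ P ∈ S₁, Ov P 𝔓 → ¬ Sq1 𝔓 (x * (algebraMap k[X] L (-(P * u P)) *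
        eval₂ (algebraMap k[X] L) θ (b P)))).filter fun 𝔓 => Ov P 𝔓).card := by
    intro P hP
    rw [← Set.ncard_coe_finset]
    congr 1
    ext 𝔓
    simp only [Set.mem_setOf_eq, Finset.coe_filter, Finset.mem_filter]
    constructor
    · rintro ⟨hov, h1, h2⟩
      refine ⟨⟨(hmem P hP 𝔓 hov).2 h1, fun P' hP' hov' => ?_⟩, hov⟩
      have e1 : P' = P := eq_of_ov (hT.mon P' hP') (hT.irr P' hP') (hT.mon P hP) (hT.irr P hP)
        hov' hov
      rw [e1]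
      rwa [cls, if_pos (((hab P hP).odd 𝔓 hov).2 h1)] at h2
    · rintro ⟨⟨h1, h2⟩, hov⟩
      have h3 := (hmem P hP 𝔓 hov).1 h1
      refine ⟨hov, h3, ?_⟩
      rw [cls, if_pos (((hab P hP).odd 𝔓 hov).2 h3)]
      exact h2 P hP hov
  rw [Finset.sum_congr rfl hset]
  have hcard : ∑ P ∈ S₁, ((T.filter fun 𝔓 => ∀ P ∈ S₁, Ov P 𝔓 →
      ¬ Sq1 𝔓 (x * (algebraMap k[X] L (-(P * u P)) *
        eval₂ (algebraMap k[X] L) θ (b P)))).filter fun 𝔓 => Ov P 𝔓).card =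
      (T.filter fun 𝔓 => ∀ P ∈ S₁, Ov P 𝔓 → ¬ Sq1 𝔓 (x * (algebraMap k[X] L (-(P * u P)) *
        eval₂ (algebraMap k[X] L) θ (b P)))).card := by
    rw [← Finset.card_biUnion]
    · congr 1
      ext 𝔓
      simp only [Finset.mem_biUnion, Finset.mem_filter]
      constructor
      · rintro ⟨P, hP, h, -⟩
        exact h
      · intro h
        obtain ⟨P, hP, hov, -⟩ := (hTT 𝔓).1 h.1
        exact ⟨P, hP, h, hov⟩
    · intro P hP P' hP' hne'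
      refine Finset.disjoint_left.2 ?_
      intro 𝔓 h1 h2
      exact hne' (eq_of_ov (hT.mon P hP) (hT.irr P hP) (hT.mon P' hP') (hT.irr P' hP')
        (Finset.mem_filter.1 h1).2 (Finset.mem_filter.1 h2).2)
  rw [hcard]
  exact key

theorem T_BIL (hA : P_ADP) : P_BIL := by
  intro k K L O _ _ _ _ _ _ _ _ _ _ _ _ _ _ _ _ g N r f θ hF hG S₁ u hT x a b hx hab
  refine ⟨quad k K L O g N r f θ hF hG S₁ u hT x a b hx hab, ?_⟩
  intro S hS s hs
  have hsx0 : s * x ≠ 0 := mul_ne_zero hs.ne hx.ne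
  have hnsx : IsSquare (Algebra.norm K (s * x)) := by
    rw [map_mul]; exact hs.nsq.mul hx.nsq
  have hsS : ∀ P ∈ S₁, P ∉ S → ∀ 𝔓 : HeightOneSpectrum O, Ov P 𝔓 → Ev 𝔓 s := fun P hP hPS =>
    hs.ev P (hT.mon P hP) (hT.irr P hP) hPS
  -- adapted factorisations for the product
  have hex : ∀ P : k[X], ∃ a' b' : k[X][X], P ∈ S₁ → Adp O f θ P (s * x) a' b' := by
    intro P
    by_cases hP : P ∈ S₁
    · obtain ⟨a', b', h⟩ := (hA k K L O g N r f θ hF hG P (hT.mon P hP) (hT.irr P hP)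
        (hT.nd P hP) (u P) (hT.nu P hP)).1 (s * x) hsx0 hnsx
      exact ⟨a', b', fun _ => h⟩
    · exact ⟨0, 0, fun h => absurd h hP⟩
  choose a' b' hab' using hex
  have hsx : RelC O K S₁ (s * x) :=
    { ne := hsx0
      nsq := hnsx
      ev := fun P hPm hPi hPS 𝔓 hov => ev_mul (hs.ev P hPm hPi (fun h => hPS (hS h)) 𝔓 hov)
        (hx.ev P hPm hPi hPS 𝔓 hov) }
  have q1 := quad k K L O g N r f θ hF hG S₁ u hT x a b hx hab
  have q2 := quad k K L O g N r f θ hF hG S₁ u hT (s * x) a' b' hsx hab'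
  have hfo : ∀ P ∈ S₁, {𝔓 : HeightOneSpectrum O | Ov P 𝔓}.Finite := fun P hP =>
    Pool.Agent.N765.PP.fin_over (K := K) (L := L) (hT.irr P hP).ne_zero
  -- at the primes in `S`
  have c1 : ∀ P ∈ S, Even ({𝔓 : HeightOneSpectrum O | Ov P 𝔓 ∧ ¬ Ev 𝔓 x ∧
      ¬ Sq1 𝔓 (x * cls θ (P * u P) 𝔓 (a P) (b P))}.ncard + {𝔓 : HeightOneSpectrum O | Ov P 𝔓 ∧
      ¬ Ev 𝔓 (s * x) ∧ ¬ Sq1 𝔓 (s * x * cls θ (P * u P) 𝔓 (a' P) (b' P))}.ncard +
      {𝔓 : HeightOneSpectrum O | Ov P 𝔓 ∧ ¬ Ev 𝔓 s ∧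
        ¬ Sq1 𝔓 (x * cls θ (P * u P) 𝔓 (a P) (b P))}.ncard) := by
    intro P hPS
    have hP := hS hPS
    have hAP := hA k K L O g N r f θ hF hG P (hT.mon P hP) (hT.irr P hP) (hT.nd P hP) (u P)
      (hT.nu P hP)
    obtain ⟨as, bs, hs1, hs2⟩ := (hAP.2.2.2.1 s hs.ne).1 (hs.tw P hPS)
    have h3 := hAP.2.2.1 s x as bs (a P) (b P) (a' P) (b' P) hs.ne hx.ne hs1 (hab P hP)
      (hab' P hP)
    refine par {𝔓 : HeightOneSpectrum O | Ov P 𝔓} (hfo P hP)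
      (fun 𝔓 => ¬ Ev 𝔓 x ∧ ¬ Sq1 𝔓 (x * cls θ (P * u P) 𝔓 (a P) (b P)))
      (fun 𝔓 => ¬ Ev 𝔓 (s * x) ∧ ¬ Sq1 𝔓 (s * x * cls θ (P * u P) 𝔓 (a' P) (b' P)))
      (fun 𝔓 => ¬ Ev 𝔓 s ∧ ¬ Sq1 𝔓 (x * cls θ (P * u P) 𝔓 (a P) (b P))) ?_
    intro 𝔓 hov
    have e1 := h3 𝔓 hov
    have e2 := hs2 𝔓 hov
    have e3 : Ev 𝔓 (s * x) ↔ (Ev 𝔓 s ↔ Ev 𝔓 x) := Pool.Agent.N539.PP.ev_mul 𝔓 hs.ne hx.ne
    simp only [e1, e2, e3, true_iff]
    by_cases h1 : Ev 𝔓 s <;> by_cases h2 : Ev 𝔓 x <;>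
      by_cases h4 : Sq1 𝔓 (x * cls θ (P * u P) 𝔓 (a P) (b P)) <;> simp [h1, h2, h4]
  -- at the other primes
  have c2 : ∀ P ∈ S₁ \ S, Even ({𝔓 : HeightOneSpectrum O | Ov P 𝔓 ∧ ¬ Ev 𝔓 x ∧
      ¬ Sq1 𝔓 (x * cls θ (P * u P) 𝔓 (a P) (b P))}.ncard + {𝔓 : HeightOneSpectrum O | Ov P 𝔓 ∧
      ¬ Ev 𝔓 (s * x) ∧ ¬ Sq1 𝔓 (s * x * cls θ (P * u P) 𝔓 (a' P) (b' P))}.ncard +
      {𝔓 : HeightOneSpectrum O | Ov P 𝔓 ∧ ¬ Ev 𝔓 x ∧ ¬ Sq1 𝔓 s}.ncard) := by
    intro P hPd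
    obtain ⟨hP, hPS⟩ := Finset.mem_sdiff.1 hPd
    have hAP := hA k K L O g N r f θ hF hG P (hT.mon P hP) (hT.irr P hP) (hT.nd P hP) (u P)
      (hT.nu P hP)
    have hse := hsS P hP hPS
    have hadp : Adp O f θ P s 1 f :=
      { am := monic_one
        bm := hG.mon
        ae := by rw [natDegree_one]; exact Even.zero
        cong := fun j => by rw [one_mul, sub_self, coeff_zero]; exact dvd_zero _
        odd := fun 𝔓 hov => by
          rw [eval₂_one, map_one]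
          constructor
          · intro h; exact absurd h (lt_irrefl _)
          · intro h; exact absurd (hse 𝔓 hov) h }
    have h3 := hAP.2.2.1 s x 1 f (a P) (b P) (a' P) (b' P) hs.ne hx.ne hadp (hab P hP)
      (hab' P hP)
    refine par {𝔓 : HeightOneSpectrum O | Ov P 𝔓} (hfo P hP)
      (fun 𝔓 => ¬ Ev 𝔓 x ∧ ¬ Sq1 𝔓 (x * cls θ (P * u P) 𝔓 (a P) (b P)))
      (fun 𝔓 => ¬ Ev 𝔓 (s * x) ∧ ¬ Sq1 𝔓 (s * x * cls θ (P * u P) 𝔓 (a' P) (b' P)))
      (fun 𝔓 => ¬ Ev 𝔓 x ∧ ¬ Sq1 𝔓 s) ?_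
    intro 𝔓 hov
    have e1 := h3 𝔓 hov
    have e2 : cls θ (P * u P) 𝔓 (1 : k[X][X]) f = (1 : L) := by
      rw [cls, eval₂_one, map_one, if_neg (lt_irrefl _)]
    rw [e2, mul_one] at e1
    have e3 : Ev 𝔓 (s * x) ↔ (Ev 𝔓 s ↔ Ev 𝔓 x) := Pool.Agent.N539.PP.ev_mul 𝔓 hs.ne hx.ne
    have e4 : Ev 𝔓 s := hse 𝔓 hov
    simp only [e1, e3, e4, true_iff]
    by_cases h1 : Sq1 𝔓 s <;> by_cases h2 : Ev 𝔓 x <;>
      by_cases h4 : Sq1 𝔓 (x * cls θ (P * u P) 𝔓 (a P) (b P)) <;> simp [h1, h2, h4]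
  have s1 := Finset.even_sum _ c1
  have s2 := Finset.even_sum _ c2
  rw [Finset.sum_add_distrib, Finset.sum_add_distrib] at s1 s2
  rw [← Finset.sum_sdiff hS] at q1 q2
  simp only [Nat.even_add] at s1 s2 q1 q2 ⊢
  tauto

end Run7.h212.PL
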