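import Pool.Agent.Run7.h286.PL.Stm
import Pool.Agent.Run7.h779.TG.STEP

/-!
# Project PRL (helper286), piece EXI (helper212): the Greenberg-Wiles inequality
-/

set_option autoImplicit false
set_option linter.all false

open Polynomial IsDedekindDomain
open scoped Classical

namespace Run7.h212.PL

open Pool.Agent.N874.PP (Ov Ev Sq1)
open Pool.Agent.N352.PJ (IsGen Crd Fam GoodR Ht dsc)
open Run7.h875.TS (sqL sz Tr)
open Run7.h784.TG
open Run7.h286.PL
open Run7.h779.TG (Tsub mem_Tsub sqL_le_Tsub ind ind_mul ind_zero ncard_sub)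

/-! ### Sums over the primes -/

theorem sum_fib {β : Type} {κ : β → Type} [Fintype β] [∀ b, Fintype (κ b)] (b : β)
    (F : (Σ b, κ b) → ZMod 2) :
    ∑ i ∈ Finset.univ.filter (fun i : Σ b, κ b => i.1 = b), F i = ∑ j : κ b, F ⟨b, j⟩ := by
  rw [Finset.sum_filter, Fintype.sum_sigma, Finset.sum_eq_single b]
  · exact Finset.sum_congr rfl fun j _ => if_pos rfl
  · intro b' _ hb'
    exact Finset.sum_eq_zero fun j _ => if_neg hb'
  · intro h
    exact absurd (Finset.mem_univ _) h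

theorem sum_cnt {ι : Type} [Fintype ι] (p : ι → Prop) (F : ι → ZMod 2)
    (hF : ∀ i, F i = if p i then 1 else 0) : ∑ i, F i = (({i | p i}.ncard : ℕ) : ZMod 2) := by
  have e1 : ∑ i, F i = ((Finset.univ.filter p).card : ZMod 2) := by
    rw [Finset.card_filter]
    push_cast
    exact Finset.sum_congr rfl fun i _ => hF i
  have e2 : {i | p i}.ncard = (Finset.univ.filter p).card := by
    rw [Set.ncard_eq_toFinset_card']
    congr 1
    ext i
    simp
  rw [e1, ← e2]

section main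

variable {k K L O : Type} [Field k] [Finite k] [Field K] [Algebra k[X] K]
  [IsFractionRing k[X] K]
  [Field L] [Algebra K L] [Algebra k[X] L] [IsScalarTower k[X] K L] [CommRing O]
  [IsDedekindDomain O] [Algebra O L] [IsFractionRing O L] [Algebra k[X] O]
  [IsScalarTower k[X] O L] [IsIntegralClosure O k[X] L] {g N : ℕ} {r : k[X]} {f : k[X][X]} {θ : L}

theorem fsum_fib {P : k[X]} (hfin : {𝔓 : HeightOneSpectrum O | Ov P 𝔓}.Finite)
    [Fintype {𝔓 : HeightOneSpectrum O // Ov P 𝔓}] (p : HeightOneSpectrum O → Prop)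
    (c : HeightOneSpectrum O → ℕ) :
    ∑ᶠ 𝔓 ∈ {𝔓 : HeightOneSpectrum O | Ov P 𝔓 ∧ p 𝔓}, c 𝔓 =
      ∑ i : {𝔓 : HeightOneSpectrum O // Ov P 𝔓}, if p i.1 then c i.1 else 0 := by
  have e1 : {𝔓 : HeightOneSpectrum O | Ov P 𝔓 ∧ p 𝔓} =
      ((hfin.toFinset.filter p : Finset (HeightOneSpectrum O)) : Set (HeightOneSpectrum O)) := by
    ext 𝔓
    simp
  rw [e1, finsum_mem_coe_finset, Finset.sum_filter]
  exact Finset.sum_subtype hfin.toFinset (fun x => by simp) (fun 𝔓 => if p 𝔓 then c 𝔓 else 0)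

theorem ind_eq (p : Prop) : ind p = if ¬ p then 1 else 0 := by
  unfold ind
  by_cases h : p <;> simp [h]

theorem ind_eq' (p : Prop) {inst : Decidable (¬ p)} : ind p = @ite (ZMod 2) (¬ p) inst 1 0 := by
  unfold ind
  by_cases h : p <;> simp [h]

theorem ind_of {p : Prop} (h : p) : ind p = 0 := if_pos h

theorem relC_mul {S : Finset k[X]} {x y : L} (hx : RelC O K S x) (hy : RelC O K S y) :
    RelC O K S (x * y) :=
  { ne := mul_ne_zero hx.ne hy.ne
    nsq := by rw [map_mul]; exact hx.nsq.mul hy.nsq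
    ev := fun P h1 h2 h3 𝔓 h4 =>
      (Pool.Agent.N539.PP.ev_mul 𝔓 hx.ne hy.ne).2
        ⟨fun _ => hy.ev P h1 h2 h3 𝔓 h4, fun _ => hx.ev P h1 h2 h3 𝔓 h4⟩ }

/-- squares satisfy all conditions -/
theorem relC_sq {S : Finset k[X]} (z : Lˣ) : RelC O K S ((z : L) ^ 2) :=
  { ne := pow_ne_zero _ z.ne_zero
    nsq := by rw [map_pow]; exact ⟨Algebra.norm K (z : L), by ring⟩
    ev := fun P _ _ _ 𝔓 _ => ⟨(z : L), by rw [map_pow]⟩ }

end main

/-- **EXI** -/
theorem T_EXI (hA : P_ADP) (hB : P_BIL) (hLin : P_LIN) (hU : P_UNI) (hX : P_AUX) (hL : P_LOCQ)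
    (hG : P_GRP) (hR : P_REP) : P_EXI := by
  intro k K L O _ _ _ _ _ _ _ _ _ _ _ _ _ _ _ _ g N r f θ hF hfull hGen S u hS Q hQm hQi hQS hQd
  obtain ⟨A, hA1, hA2⟩ := hX k K L O g N r f θ hF hfull hGen (insert Q S)
  obtain ⟨SA, hSA⟩ : ∃ SA : Finset k[X], SA = S ∪ A := ⟨_, rfl⟩
  obtain ⟨S₁, hS₁⟩ : ∃ S₁ : Finset k[X], S₁ = insert Q SA := ⟨_, rfl⟩
  obtain ⟨u', hu'⟩ : ∃ u' : k[X] → k[X], u' = fun P => if P ∈ S then u P else 1 := ⟨_, rfl⟩
  have hu1 : ∀ P ∈ S, u' P = u P := fun P hP => by rw [hu']; exact if_pos hP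
  have hu2 : ∀ P, P ∉ S → u' P = 1 := fun P hP => by rw [hu']; exact if_neg hP
  have hAS : ∀ P ∈ A, P ∉ S := fun P hP h => (hA1 P hP).2.2.2 (Finset.mem_insert_of_mem h)
  have hAQ : Q ∉ A := fun h => (hA1 Q h).2.2.2 (Finset.mem_insert_self _ _)
  have hQSA : Q ∉ SA := by
    rw [hSA, Finset.mem_union]
    rintro (h | h)
    · exact hQS h
    · exact hAQ h
  have hSSA : ∀ P ∈ S, P ∈ SA := fun P hP => by rw [hSA]; exact Finset.mem_union_left _ hP
  have hASA : ∀ P ∈ A, P ∈ SA := fun P hP => by rw [hSA]; exact Finset.mem_union_right _ hP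
  have hSA1 : ∀ P ∈ SA, P ∈ S₁ := fun P hP => by rw [hS₁]; exact Finset.mem_insert_of_mem hP
  have hSAor : ∀ P ∈ SA, P ∉ S → P ∈ A := fun P hP h => by
    rw [hSA] at hP
    exact (Finset.mem_union.1 hP).resolve_left h
  have hS1or : ∀ P ∈ S₁, P = Q ∨ P ∈ S ∨ P ∈ A := fun P hP => by
    rw [hS₁] at hP
    rcases Finset.mem_insert.1 hP with h | h
    · exact Or.inl h
    · rw [hSA] at h
      exact Or.inr (Finset.mem_union.1 h)
  have hSsub : S ⊆ S₁ := fun P hP => hSA1 P (hSSA P hP)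
  have hT1 : GoodT g f S₁ u' := by
    refine ⟨?_, ?_, ?_, ?_⟩
    · intro P hP
      rcases hS1or P hP with rfl | h | h
      · exact hQm
      · exact hS.mon P h
      · exact (hA1 P h).1
    · intro P hP
      rcases hS1or P hP with rfl | h | h
      · exact hQi
      · exact hS.irr P h
      · exact (hA1 P h).2.1
    · intro P hP
      rcases hS1or P hP with rfl | h | h
      · exact hQd
      · exact hS.nd P h
      · exact (hA1 P h).2.2.1
    · intro P hP
      by_cases h : P ∈ S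
      · rw [hu1 P h]; exact hS.nu P h
      · rw [hu2 P h]
        have hi : Irreducible P := by
          rcases hS1or P hP with rfl | h | h
          · exact hQi
          · exact hS.irr P h
          · exact (hA1 P h).2.1
        exact fun hd => hi.not_isUnit (isUnit_of_dvd_one hd)
  have hS' : GoodT g f S u' := ⟨hS.mon, hS.irr, hS.nd, fun P hP => by rw [hu1 P hP]; exact hS.nu P hP⟩
  have hselu : ∀ s : L, SelC O K f θ S u s → SelC O K f θ S u' s := fun s hs =>
    ⟨hs.ne, hs.nsq, hs.ev, fun P hP => by rw [hu1 P hP]; exact hs.tw P hP⟩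
  -- groups
  obtain ⟨mG, sG⟩ := (hG k K L O g N r f θ hF hGen).2 S u hS
  have hszG := (hR k K L O g N r f θ hF hGen).2 S u hS mG
  obtain ⟨mR, sR, szR, uR⟩ := hU k K L O g N r f θ hF hGen S₁
    (fun P hP => ⟨hT1.mon P hP, hT1.irr P hP⟩)
  obtain ⟨M, hM⟩ : ∃ M : Subgroup Lˣ, ∀ α : Lˣ, α ∈ M ↔ (RelC O K (insert Q S) (α : L) ∧
      ∀ P ∈ S, LocW O f θ P (P * u P) (α : L)) := by
    have hsqM : ∀ z : Lˣ, RelC O K (insert Q S) ((z : L) ^ 2) ∧
        ∀ P ∈ S, LocW O f θ P (P * u P) ((z : L) ^ 2) := by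
      intro z
      refine ⟨relC_sq z, fun P hP => ?_⟩
      have h1 : z ^ 2 ∈ SelG O K f θ S u := sG ⟨z, rfl⟩
      have h2 := ((mG _).1 h1).tw P hP
      rwa [Units.val_pow_eq_pow_val] at h2
    have hmul : ∀ x y : L, (RelC O K (insert Q S) x ∧ ∀ P ∈ S, LocW O f θ P (P * u P) x) →
        (RelC O K (insert Q S) y ∧ ∀ P ∈ S, LocW O f θ P (P * u P) y) →
        (RelC O K (insert Q S) (x * y) ∧ ∀ P ∈ S, LocW O f θ P (P * u P) (x * y)) := by
      rintro x y ⟨h1, h2⟩ ⟨h3, h4⟩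
      exact ⟨relC_mul h1 h3, fun P hP => (hG k K L O g N r f θ hF hGen).1 P (hS.mon P hP)
        (hS.irr P hP) (hS.nd P hP) (u P) (hS.nu P hP) x y h1.ne h3.ne (h2 P hP) (h4 P hP)⟩
    refine ⟨{ carrier := {α | RelC O K (insert Q S) (α : L) ∧
                ∀ P ∈ S, LocW O f θ P (P * u P) (α : L)}
              mul_mem' := ?_
              one_mem' := ?_
              inv_mem' := ?_ }, fun α => Iff.rfl⟩
    · intro a b ha hb
      have := hmul _ _ ha hb
      rwa [← Units.val_mul] at this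
    · have := hsqM 1
      rwa [← Units.val_pow_eq_pow_val, one_pow] at this
    · intro a ha
      have h1 := hmul _ _ ha (hsqM a⁻¹)
      have e : (a : L) * ((a⁻¹ : Lˣ) : L) ^ 2 = ((a⁻¹ : Lˣ) : L) := by
        rw [pow_two, ← mul_assoc, Units.mul_inv, one_mul]
      rwa [e] at h1
  have hMsq : sqL L ≤ M := by
    rintro _ ⟨z, rfl⟩
    have h1 : z ^ 2 ∈ SelG O K f θ S u := sG ⟨z, rfl⟩
    have h2 := (mG _).1 h1
    rw [hM]
    refine ⟨⟨h2.ne, h2.nsq, fun P h3 h4 h5 => h2.ev P h3 h4 fun h6 => h5 (Finset.mem_insert_of_mem h6)⟩,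
      h2.tw⟩
  have hMR : M ≤ (RelG O K S₁ : Subgroup Lˣ) := by
    intro α hα
    have h1 := ((hM α).1 hα).1
    rw [mR]
    refine ⟨h1.ne, h1.nsq, fun P h3 h4 h5 => h1.ev P h3 h4 fun h6 => h5 ?_⟩
    rcases Finset.mem_insert.1 h6 with h7 | h7
    · rw [h7, hS₁]; exact Finset.mem_insert_self _ _
    · exact hSsub h7
  have hMsz : sz M ≠ 0 := by
    intro h0
    apply szR
    have h1 : (sqL L).relIndex M * M.relIndex (RelG O K S₁ : Subgroup Lˣ) =
        (sqL L).relIndex (RelG O K S₁ : Subgroup Lˣ) := Subgroup.relIndex_mul_relIndex _ _ _ hMsq hMR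
    show (sqL L).relIndex (RelG O K S₁ : Subgroup Lˣ) = 0
    rw [← h1, show (sqL L).relIndex M = 0 from h0, zero_mul]
  have hHsz : (sqL L).relIndex (SelG O K f θ S u ⊓ Tsub L O Q) ≠ 0 := by
    intro h0
    apply hszG
    have h1 : (sqL L).relIndex (SelG O K f θ S u ⊓ Tsub L O Q) *
        (SelG O K f θ S u ⊓ Tsub L O Q).relIndex (SelG O K f θ S u) =
        (sqL L).relIndex (SelG O K f θ S u) :=
      Subgroup.relIndex_mul_relIndex _ _ _ (le_inf sG (sqL_le_Tsub Q)) inf_le_left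
    show (sqL L).relIndex (SelG O K f θ S u) = 0
    rw [← h1, h0, zero_mul]
  -- adapted factorisations
  have hex : ∀ (x : Lˣ) (P : k[X]), ∃ a b : k[X][X], x ∈ (RelG O K S₁ : Subgroup Lˣ) → P ∈ S₁ →
      Adp O f θ P (x : L) a b := by
    intro x P
    by_cases hx : x ∈ (RelG O K S₁ : Subgroup Lˣ)
    · by_cases hP : P ∈ S₁
      · obtain ⟨a, b, h⟩ := (hA k K L O g N r f θ hF hGen P (hT1.mon P hP) (hT1.irr P hP)
          (hT1.nd P hP) (u' P) (hT1.nu P hP)).1 (x : L) x.ne_zero ((mR x).1 hx).nsq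
        exact ⟨a, b, fun _ _ => h⟩
      · exact ⟨0, 0, fun _ h => absurd h hP⟩
    · exact ⟨0, 0, fun h => absurd h hx⟩
  choose aa bb hab using hex
  -- the weights
  have hc : ∀ P : k[X], ∃ c : HeightOneSpectrum O → ℕ, P ∈ S₁ →
      ∑ᶠ 𝔓 ∈ {𝔓 : HeightOneSpectrum O | Ov P 𝔓}, c 𝔓 = 2 * g + 1 ∧
      ∀ x : L, x ≠ 0 → IsSquare (Algebra.norm K x) →
        Even (∑ᶠ 𝔓 ∈ {𝔓 : HeightOneSpectrum O | Ov P 𝔓 ∧ ¬ Ev 𝔓 x}, c 𝔓) := by
    intro P
    by_cases hP : P ∈ S₁
    · obtain ⟨c, h⟩ := (hA k K L O g N r f θ hF hGen P (hT1.mon P hP) (hT1.irr P hP)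
        (hT1.nd P hP) (u' P) (hT1.nu P hP)).2.2.2.2
      exact ⟨c, fun _ => h⟩
    · exact ⟨fun _ => 0, fun h => absurd h hP⟩
  choose cc hcc using hc
  have hLQ := fun P hP => hL k K L O g N r f θ hF hGen P (hT1.mon P hP) (hT1.irr P hP) (hT1.nd P hP)
  have hfin : ∀ P ∈ S₁, {𝔓 : HeightOneSpectrum O | Ov P 𝔓}.Finite := fun P hP => (hLQ P hP).1
  have hresf : ∀ P ∈ S₁, ∀ 𝔓 : HeightOneSpectrum O, Ov P 𝔓 → Finite (O ⧸ 𝔓.asIdeal) := by
    have hfinO : Module.Finite k[X] O :=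
      (Pool.Agent.N588.PJ.fin_O Pool.Agent.N769.PJ.int g k K L O f θ hGen hF.fam.sq).2
    exact fun P hP 𝔓 h => Pool.Agent.N539.PP.finite_residue (hT1.irr P hP) h
  -- index types
  let β : Type := {P : k[X] // P ∈ SA}
  let κ : β → Type := fun P => {𝔓 : HeightOneSpectrum O // Ov P.1 𝔓}
  letI : ∀ P : β, Fintype (κ P) := fun P => (hfin P.1 (hSA1 _ P.2)).fintype
  let ι : Type := Σ P : β, κ P
  let Λ : Lˣ → ι → ZMod 2 := fun x i => if i.1.1 ∈ S then
    ind (Sq1 i.2.1 ((x : L) * cls θ (i.1.1 * u' i.1.1) i.2.1 (aa x i.1.1) (bb x i.1.1)))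
    else ind (Ev i.2.1 (x : L))
  let m : Lˣ → ι → ZMod 2 := fun s i => if i.1.1 ∈ S then ind (Ev i.2.1 (s : L))
    else ind (Sq1 i.2.1 (s : L))
  let c : ι → ZMod 2 := fun i => if i.1.1 ∈ S then 1 else (cc i.1.1 i.2.1 : ZMod 2)
  have key := hLin Lˣ ι β (sqL L) (SelG O K f θ S u ⊓ Tsub L O Q) (RelG O K S₁ : Subgroup Lˣ) M
    Λ m (fun i => i.1) c (le_inf sG (sqL_le_Tsub Q)) hMsq hMR szR hHsz
    (by
      -- `Λ` is additive
      intro x hx y hy
      funext i
      have hP := hSA1 _ i.1.2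
      by_cases h : i.1.1 ∈ S
      · simp only [Λ, Pi.add_apply, if_pos h]
        refine ind_mul ?_
        rw [Units.val_mul]
        have h3 := (hA k K L O g N r f θ hF hGen i.1.1 (hT1.mon _ hP) (hT1.irr _ hP)
          (hT1.nd _ hP) (u' i.1.1) (hT1.nu _ hP)).2.2.1 (x : L) (y : L) _ _ _ _ (aa (x * y) i.1.1)
          (bb (x * y) i.1.1) x.ne_zero y.ne_zero (hab x i.1.1 hx hP) (hab y i.1.1 hy hP)
          (by
            have := hab (x * y) i.1.1 (mul_mem hx hy) hP
            rwa [Units.val_mul] at this) i.2.1 i.2.2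
        exact h3
      · simp only [Λ, Pi.add_apply, if_neg h]
        refine ind_mul ?_
        rw [Units.val_mul]
        exact Pool.Agent.N539.PP.ev_mul i.2.1 x.ne_zero y.ne_zero)
    (by
      -- kernel of `Λ`
      intro x hx h0
      have hxR := (mR x).1 hx
      rw [hM]
      refine ⟨⟨hxR.ne, hxR.nsq, fun P h3 h4 h5 𝔓 hov => ?_⟩, fun P hP => ?_⟩
      · by_cases hPA : P ∈ A
        · have h6 := congrFun h0 ⟨⟨P, hASA P hPA⟩, ⟨𝔓, hov⟩⟩
          have h7 : ind (Ev 𝔓 (x : L)) = 0 := by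
            simp only [Λ, Pi.zero_apply] at h6
            rwa [if_neg (hAS P hPA)] at h6
          exact ind_zero h7
        · refine hxR.ev P h3 h4 (fun h6 => ?_) 𝔓 hov
          rcases hS1or P h6 with h7 | h7 | h7
          · exact h5 (by rw [h7]; exact Finset.mem_insert_self _ _)
          · exact h5 (Finset.mem_insert_of_mem h7)
          · exact hPA h7
      · have h8 := ((hA k K L O g N r f θ hF hGen P (hT1.mon _ (hSsub hP)) (hT1.irr _ (hSsub hP))
          (hT1.nd _ (hSsub hP)) (u' P) (hT1.nu _ (hSsub hP))).2.2.2.1 (x : L) x.ne_zero).2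
          ⟨aa x P, bb x P, hab x P hx (hSsub hP), fun 𝔓 hov => by
            have h6 := congrFun h0 ⟨⟨P, hSSA P hP⟩, ⟨𝔓, hov⟩⟩
            simp only [Λ, Pi.zero_apply] at h6
            rw [if_pos hP] at h6
            exact ind_zero h6⟩
        rwa [hu1 P hP] at h8)
    (by
      -- `m` is additive
      intro x hx y hy
      funext i
      have hP := hSA1 _ i.1.2
      by_cases h : i.1.1 ∈ S
      · simp only [m, Pi.add_apply, if_pos h]
        refine ind_mul ?_
        rw [Units.val_mul]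
        exact Pool.Agent.N539.PP.ev_mul i.2.1 x.ne_zero y.ne_zero
      · simp only [m, Pi.add_apply, if_neg h]
        refine ind_mul ?_
        rw [Units.val_mul]
        haveI := hresf _ hP i.2.1 i.2.2
        have sx := (mG x).1 hx.1
        have sy := (mG y).1 hy.1
        exact Pool.Agent.N539.PP.sq1_mul_iff i.2.1 x.ne_zero y.ne_zero
          (sx.ev _ (hT1.mon _ hP) (hT1.irr _ hP) h _ i.2.2)
          (sy.ev _ (hT1.mon _ hP) (hT1.irr _ hP) h _ i.2.2))
    (by
      -- squares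
      rintro _ ⟨z, rfl⟩
      funext i
      have e1 : (((powMonoidHom 2 : Lˣ →* Lˣ) z : Lˣ) : L) = (z : L) ^ 2 := by
        rw [powMonoidHom_apply, Units.val_pow_eq_pow_val]
      simp only [m, Pi.zero_apply, e1]
      have h1 : Ev i.2.1 ((z : L) ^ 2) := ⟨(z : L), by rw [map_pow]⟩
      have h2 : Sq1 i.2.1 ((z : L) ^ 2) := Pool.Agent.N539.PP.sq1_sq i.2.1 z.ne_zero
      rw [ind_of h1, ind_of h2, ite_self])
    (by
      -- weights
      intro P
      have hP := hSA1 _ P.2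
      by_cases h : P.1 ∈ S
      · obtain ⟨𝔓, hov⟩ := (hLQ P.1 hP).2.1
        refine ⟨⟨P, ⟨𝔓, hov⟩⟩, rfl, ?_⟩
        simp only [c, if_pos h]
        exact one_ne_zero
      · by_contra hcon
        push Not at hcon
        have h1 := (hcc P.1 hP).1
        have h2 := fsum_fib (O := O) (hfin P.1 hP) (fun _ => True) (cc P.1)
        simp only [and_true, if_true] at h2
        have h3 : ((∑ i : κ P, cc P.1 i.1 : ℕ) : ZMod 2) = 0 := by
          push_cast
          refine Finset.sum_eq_zero fun i _ => ?_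
          have h4 := hcon ⟨P, i⟩ rfl
          simp only [c, if_neg h] at h4
          exact h4
        have h5 : (∑ i : κ P, cc P.1 i.1 : ℕ) = 2 * g + 1 := by
          rw [← h1, h2]
        rw [h5] at h3
        rw [ZMod.natCast_eq_zero_iff] at h3
        omega)
    (by
      -- orthogonality to the weights
      intro x hx P
      have hP := hSA1 _ P.2
      rw [sum_fib (κ := κ) P (fun i => c i * Λ x i)]
      by_cases h : P.1 ∈ S
      · have h1 : ∑ j : κ P, c ⟨P, j⟩ * Λ x ⟨P, j⟩ = (({j : κ P | ¬ Sq1 j.1 ((x : L) *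
            cls θ (P.1 * u' P.1) j.1 (aa x P.1) (bb x P.1))}.ncard : ℕ) : ZMod 2) := by
          refine sum_cnt _ _ fun j => ?_
          simp only [c, Λ, if_pos h, one_mul]
          exact ind_eq' _
        have h2 := ncard_sub (Q := P.1) (O := O) fun 𝔓 : HeightOneSpectrum O => ¬ Sq1 𝔓 ((x : L) *
            cls θ (P.1 * u' P.1) 𝔓 (aa x P.1) (bb x P.1))
        have h3 := ((hA k K L O g N r f θ hF hGen P.1 (hT1.mon _ hP) (hT1.irr _ hP)
          (hT1.nd _ hP) (u' P.1) (hT1.nu _ hP)).2.1 (x : L) _ _ x.ne_zero ((mR x).1 hx).nsq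
          (hab x P.1 hx hP)).2
        rw [h1]
        rw [← h2] at h3
        rw [ZMod.natCast_eq_zero_iff]
        exact h3.two_dvd
      · have h1 := (hcc P.1 hP).2 (x : L) x.ne_zero ((mR x).1 hx).nsq
        rw [fsum_fib (O := O) (hfin P.1 hP) (fun 𝔓 => ¬ Ev 𝔓 (x : L)) (cc P.1)] at h1
        obtain ⟨w, hw⟩ := h1
        have h2 : ∑ j : κ P, c ⟨P, j⟩ * Λ x ⟨P, j⟩ = ((w + w : ℕ) : ZMod 2) := by
          rw [← hw]
          push_cast
          refine Finset.sum_congr rfl fun j _ => ?_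
          simp only [c, Λ, if_neg h]
          by_cases hj : Ev j.1 (x : L)
          · rw [ind_of hj, mul_zero, if_neg (not_not.2 hj)]
          · rw [ind_eq, if_pos hj, mul_one, if_pos hj]
        rw [h2, ZMod.natCast_eq_zero_iff]
        exact ⟨w, by ring⟩)
    (by
      -- orthogonality (BIL)
      intro s hs x hx
      have sS := hselu _ ((mG s).1 hs.1)
      have sT := (mem_Tsub s).1 hs.2
      have hb := (hB k K L O g N r f θ hF hGen S₁ u' hT1 (x : L) (aa x) (bb x) ((mR x).1 hx)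
        (fun P hP => hab x P hx hP)).2 S hSsub (s : L) sS
      let nn : k[X] → ℕ := fun P => if P ∈ S then {𝔓 : HeightOneSpectrum O | Ov P 𝔓 ∧
        ¬ Ev 𝔓 (s : L) ∧ ¬ Sq1 𝔓 ((x : L) * cls θ (P * u' P) 𝔓 (aa x P) (bb x P))}.ncard
        else {𝔓 : HeightOneSpectrum O | Ov P 𝔓 ∧ ¬ Ev 𝔓 (x : L) ∧ ¬ Sq1 𝔓 (s : L)}.ncard
      have h1 : Even (∑ P ∈ S₁, nn P) := by
        rw [← Finset.sum_sdiff hSsub, add_comm]
        convert hb using 2
        · exact Finset.sum_congr rfl fun P hP => if_pos hP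
        · exact Finset.sum_congr rfl fun P hP => if_neg (Finset.mem_sdiff.1 hP).2
      have h2 : nn Q = 0 := by
        show (if Q ∈ S then _ else _) = 0
        rw [if_neg hQS, Set.ncard_eq_zero ((hfin Q (by rw [hS₁]; exact Finset.mem_insert_self _ _)).subset
          fun 𝔓 h => h.1)]
        ext 𝔓
        simp only [Set.mem_setOf_eq, Set.mem_empty_iff_false, iff_false]
        rintro ⟨h3, -, h4⟩
        exact h4 (sT 𝔓 h3)
      rw [hS₁, Finset.sum_insert hQSA, h2, zero_add] at h1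
      have h3 : ∑ i : ι, m s i * Λ x i = ((∑ P ∈ SA, nn P : ℕ) : ZMod 2) := by
        rw [Fintype.sum_sigma]
        push_cast
        rw [← Finset.sum_coe_sort SA]
        refine Finset.sum_congr rfl fun P _ => ?_
        by_cases h : P.1 ∈ S
        · have e1 := ncard_sub (Q := P.1) (O := O) fun 𝔓 : HeightOneSpectrum O => ¬ Ev 𝔓 (s : L) ∧
            ¬ Sq1 𝔓 ((x : L) * cls θ (P.1 * u' P.1) 𝔓 (aa x P.1) (bb x P.1))
          have e2 : nn P.1 = _ := if_pos h
          rw [e2, ← e1]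
          refine sum_cnt _ _ fun j => ?_
          simp only [m, Λ, if_pos h, ind_eq]
          split_ifs <;> simp_all
        · have e1 := ncard_sub (Q := P.1) (O := O) fun 𝔓 : HeightOneSpectrum O => ¬ Ev 𝔓 (x : L) ∧
            ¬ Sq1 𝔓 (s : L)
          have e2 : nn P.1 = _ := if_neg h
          rw [e2, ← e1]
          refine sum_cnt _ _ fun j => ?_
          simp only [m, Λ, if_neg h, ind_eq]
          split_ifs <;> simp_all
      rw [h3, ZMod.natCast_eq_zero_iff]
      exact h1.two_dvd)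
    (by
      -- the only proportional vectors
      intro s hs t ht
      have sS := (mG s).1 hs.1
      have hSev : ∀ P ∈ S, ∀ 𝔓 : HeightOneSpectrum O, Ov P 𝔓 → Ev 𝔓 (s : L) := by
        intro P hP
        obtain ⟨𝔓₀, hov₀, he₀⟩ := ((hLQ P (hSsub hP)).2.2.2.2 (u P) (s : L) (hS.nu P hP) s.ne_zero
          (sS.tw P hP)).2
        have h1 := ht ⟨⟨P, hSSA P hP⟩, ⟨𝔓₀, hov₀⟩⟩
        simp only [m, c, if_pos hP, mul_one] at h1
        rw [ind_of he₀] at h1
        intro 𝔓 hov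
        have h2 := ht ⟨⟨P, hSSA P hP⟩, ⟨𝔓, hov⟩⟩
        simp only [m, c, if_pos hP, mul_one] at h2
        rw [← h1] at h2
        exact ind_zero h2
      have hAsq : ∀ P ∈ A, Tr O P (s : L) := by
        intro P hP
        have hP1 := hSA1 P (hASA P hP)
        have hPS := hAS P hP
        have h1 := (hLQ P hP1).2.2.2.1 (s : L) s.ne_zero sS.nsq
          (sS.ev P (hT1.mon _ hP1) (hT1.irr _ hP1) hPS)
        have e0 := ncard_sub (Q := P) (O := O) fun 𝔓 : HeightOneSpectrum O => ¬ Sq1 𝔓 (s : L)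
        rw [← e0] at h1
        have h2 : ∑ j : κ ⟨P, hASA P hP⟩, ind (Sq1 j.1 (s : L)) = 0 := by
          rw [sum_cnt (fun j : κ ⟨P, hASA P hP⟩ => ¬ Sq1 j.1 (s : L)) _ fun j => ind_eq' _,
            ZMod.natCast_eq_zero_iff]
          exact h1.two_dvd
        have h3 : ∀ j : κ ⟨P, hASA P hP⟩, ind (Sq1 j.1 (s : L)) =
            t ⟨P, hASA P hP⟩ * (cc P j.1 : ZMod 2) := by
          intro j
          have h4 := ht ⟨⟨P, hASA P hP⟩, j⟩
          simp only [m, c, if_neg hPS] at h4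
          exact h4
        have h5 : (∑ j : κ ⟨P, hASA P hP⟩, (cc P j.1 : ZMod 2)) = 1 := by
          have h6 := (hcc P hP1).1
          letI : Fintype {𝔓 : HeightOneSpectrum O // Ov P 𝔓} :=
            inferInstanceAs (Fintype (κ ⟨P, hASA P hP⟩))
          have h7 := fsum_fib (O := O) (hfin P hP1) (fun _ => True) (cc P)
          simp only [and_true, if_true] at h7
          have h8 : (∑ j : κ ⟨P, hASA P hP⟩, (cc P j.1 : ZMod 2)) =
              ((∑ j : κ ⟨P, hASA P hP⟩, cc P j.1 : ℕ) : ZMod 2) := by push_cast; rfl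
          have h9 : (∑ j : κ ⟨P, hASA P hP⟩, cc P j.1 : ℕ) = 2 * g + 1 := h7.symm.trans h6
          have h12 : ((∑ j : κ ⟨P, hASA P hP⟩, cc P j.1 : ℕ) : ZMod 2) = 1 := by
            rw [h9]
            push_cast
            rw [show (2 : ZMod 2) = 0 from rfl, zero_mul, zero_add]
          exact h8.trans h12
        have h10 : t ⟨P, hASA P hP⟩ = 0 := by
          rw [Finset.sum_congr rfl fun j _ => h3 j, ← Finset.mul_sum, h5, mul_one] at h2
          exact h2
        intro 𝔓 hov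
        have h11 := h3 ⟨𝔓, hov⟩
        rw [h10, zero_mul] at h11
        exact ind_zero h11
      have hrel : RelC O K (∅ : Finset k[X]) (s : L) :=
        { ne := s.ne_zero
          nsq := sS.nsq
          ev := fun P h1 h2 _ 𝔓 hov => by
            by_cases hP : P ∈ S
            · exact hSev P hP 𝔓 hov
            · exact sS.ev P h1 h2 hP 𝔓 hov }
      obtain ⟨z, hz⟩ := hA2 (s : L) hrel hAsq
      have hz0 : z ≠ 0 := by
        rintro rfl
        exact s.ne_zero (by rw [hz, mul_zero])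
      refine ⟨Units.mk0 z hz0, ?_⟩
      ext
      rw [powMonoidHom_apply, Units.val_pow_eq_pow_val, Units.val_mk0, hz, pow_two])
  -- conclusion
  have hnr : ∀ P : β, Fintype.card (κ P) = nr O P.1 := by
    intro P
    rw [nr, ← Nat.card_eq_fintype_card]
    rfl
  have hnr1 : ∀ P ∈ SA, 1 ≤ nr O P := by
    intro P hP
    obtain ⟨𝔓, hov⟩ := (hLQ P (hSA1 P hP)).2.1
    rw [nr]
    exact Nat.one_le_iff_ne_zero.2 (Set.ncard_ne_zero_of_mem (a := 𝔓) hov (hfin P (hSA1 P hP)))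
  have hcard : Fintype.card ι - Fintype.card β = ∑ P ∈ SA, (nr O P - 1) := by
    have h1 : Fintype.card ι = ∑ P ∈ SA, nr O P := by
      rw [Fintype.card_sigma, ← Finset.sum_coe_sort SA]
      exact Finset.sum_congr rfl fun P _ => hnr P
    have h2 : Fintype.card β = ∑ _P ∈ SA, 1 := by
      rw [Finset.sum_const, smul_eq_mul, mul_one]
      exact Fintype.card_coe SA
    have h3 : ∑ P ∈ SA, nr O P = ∑ P ∈ SA, (nr O P - 1) + ∑ _P ∈ SA, 1 := by
      rw [← Finset.sum_add_distrib]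
      exact Finset.sum_congr rfl fun P hP => (Nat.sub_add_cancel (hnr1 P hP)).symm
    rw [h1, h2, h3, Nat.add_sub_cancel]
  rw [hcard] at key
  refine ⟨Tsub L O Q, M, mem_Tsub, hM, hMsq, hMsz, ?_⟩
  have h1 : ∑ P ∈ S₁, (nr O P - 1) = (nr O Q - 1) + ∑ P ∈ SA, (nr O P - 1) := by
    rw [hS₁, Finset.sum_insert hQSA]
  rw [h1, pow_add] at uR
  have h2 : 2 ^ (∑ P ∈ SA, (nr O P - 1)) * (2 ^ (nr O Q - 1) *
      sz (SelG O K f θ S u ⊓ Tsub L O Q)) ≤ 2 ^ (∑ P ∈ SA, (nr O P - 1)) * sz M := by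
    calc 2 ^ (∑ P ∈ SA, (nr O P - 1)) * (2 ^ (nr O Q - 1) *
        sz (SelG O K f θ S u ⊓ Tsub L O Q)) = (2 ^ (nr O Q - 1) *
          2 ^ (∑ P ∈ SA, (nr O P - 1))) * sz (SelG O K f θ S u ⊓ Tsub L O Q) := by ring
      _ ≤ sz (RelG O K S₁ : Subgroup Lˣ) * sz (SelG O K f θ S u ⊓ Tsub L O Q) :=
          Nat.mul_le_mul_right _ uR
      _ ≤ _ := key
  exact Nat.le_of_mul_le_mul_left h2 (by positivity)

end Run7.h212.PL

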